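import Mathlib

/-!
Truncated inclusion and exclusion for products of factors `1 - g i` with `0 ≤ g i ≤ 1`,
and elementary symmetric bounds.
-/

open Finset

set_option linter.unusedSectionVars false

namespace Pool.Agent.Helper19.CB

variable {ι : Type*} [DecidableEq ι]

/-- truncated alternating sum of the products of `g` over the subsets of size at most `j` -/
def tsum (g : ι → ℝ) (I : Finset ι) (j : ℕ) : ℝ :=
  ∑ W ∈ I.powerset with W.card ≤ j, (-1 : ℝ) ^ W.card * ∏ i ∈ W, g i

/-- sum of the products of `g` over the subsets of size exactly `j` -/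
def esum (g : ι → ℝ) (I : Finset ι) (j : ℕ) : ℝ :=
  ∑ W ∈ I.powersetCard j, ∏ i ∈ W, g i

lemma esum_empty (g : ι → ℝ) (j : ℕ) : esum g ∅ (j + 1) = 0 := by
  unfold esum
  rw [Finset.powersetCard_eq_empty.2 (by simp)]; simp

lemma esum_zero (g : ι → ℝ) (I : Finset ι) : esum g I 0 = 1 := by
  simp [esum]

lemma esum_nonneg {g : ι → ℝ} {I : Finset ι} (hg : ∀ i ∈ I, 0 ≤ g i) (j : ℕ) :
    0 ≤ esum g I j := by
  unfold esum
  refine Finset.sum_nonneg fun W hW => Finset.prod_nonneg fun i hi => hg i ?_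
  exact (Finset.mem_powersetCard.1 hW).1 hi

lemma esum_insert (g : ι → ℝ) {I : Finset ι} {i : ι} (hi : i ∉ I) (j : ℕ) :
    esum g (insert i I) (j + 1) = esum g I (j + 1) + g i * esum g I j := by
  unfold esum
  rw [Finset.powersetCard_succ_insert hi, Finset.sum_union, Finset.sum_image, Finset.mul_sum]
  · congr 1
    refine Finset.sum_congr rfl fun W hW => ?_
    rw [Finset.prod_insert fun h => hi ((Finset.mem_powersetCard.1 hW).1 h)]
  · intro A hA B hB h
    have hA' : i ∉ A := fun h => hi ((Finset.mem_powersetCard.1 hA).1 h)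
    have hB' : i ∉ B := fun h => hi ((Finset.mem_powersetCard.1 hB).1 h)
    rw [← Finset.erase_insert hA', ← Finset.erase_insert hB', h]
  · rw [Finset.disjoint_left]
    intro A hA hB
    obtain ⟨B, -, rfl⟩ := Finset.mem_image.1 hB
    exact hi ((Finset.mem_powersetCard.1 hA).1 (Finset.mem_insert_self i B))

lemma tsum_eq (g : ι → ℝ) (I : Finset ι) (j : ℕ) :
    tsum g I j = ∑ m ∈ range (j + 1), (-1 : ℝ) ^ m * esum g I m := by
  unfold tsum esum
  rw [← Finset.sum_fiberwise_of_maps_to (g := fun W : Finset ι => W.card)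
    (t := range (j + 1)) (fun W hW => by
      simp only [Finset.mem_filter] at hW; simp; omega)]
  refine Finset.sum_congr rfl fun m hm => ?_
  rw [Finset.mul_sum]
  have : ({W ∈ I.powerset | W.card ≤ j}).filter (fun W => W.card = m) = I.powersetCard m := by
    ext W
    simp only [Finset.mem_filter, Finset.mem_powerset, Finset.mem_powersetCard]
    simp only [Finset.mem_range] at hm
    constructor
    · rintro ⟨⟨h1, -⟩, h2⟩; exact ⟨h1, h2⟩
    · rintro ⟨h1, h2⟩; exact ⟨⟨h1, by omega⟩, h2⟩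
  rw [this]
  refine Finset.sum_congr rfl fun W hW => ?_
  rw [(Finset.mem_powersetCard.1 hW).2]

lemma tsum_zero (g : ι → ℝ) (I : Finset ι) : tsum g I 0 = 1 := by
  rw [tsum_eq]; simp [esum_zero]

lemma tsum_succ (g : ι → ℝ) (I : Finset ι) (j : ℕ) :
    tsum g I (j + 1) = tsum g I j + (-1 : ℝ) ^ (j + 1) * esum g I (j + 1) := by
  rw [tsum_eq, tsum_eq, Finset.sum_range_succ _ (j + 1)]

lemma tsum_insert (g : ι → ℝ) {I : Finset ι} {i : ι} (hi : i ∉ I) (j : ℕ) :
    tsum g (insert i I) (j + 1) = tsum g I (j + 1) - g i * tsum g I j := by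
  induction j with
  | zero =>
    rw [tsum_succ, tsum_succ, tsum_zero, tsum_zero, esum_insert g hi, esum_zero]; ring
  | succ j ih =>
    rw [tsum_succ, ih, tsum_succ g I (j + 1), tsum_succ g I j, esum_insert g hi]; ring

/-- Bonferroni: the signed error of the truncated product is between `0` and the next
elementary symmetric sum. -/
theorem bonf {g : ι → ℝ} {I : Finset ι} (h0 : ∀ i ∈ I, 0 ≤ g i) (h1 : ∀ i ∈ I, g i ≤ 1)
    (j : ℕ) :
    0 ≤ (-1 : ℝ) ^ j * (tsum g I j - ∏ i ∈ I, (1 - g i)) ∧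
      (-1 : ℝ) ^ j * (tsum g I j - ∏ i ∈ I, (1 - g i)) ≤ esum g I (j + 1) := by
  induction I using Finset.induction_on generalizing j with
  | empty =>
    have : tsum g ∅ j = 1 := by
      rw [tsum_eq, Finset.sum_range_succ', esum_zero]
      simp [esum_empty]
    rw [this, esum_empty]; simp
  | insert i I hi ih =>
    have h0' : ∀ i ∈ I, 0 ≤ g i := fun k hk => h0 k (Finset.mem_insert_of_mem hk)
    have h1' : ∀ i ∈ I, g i ≤ 1 := fun k hk => h1 k (Finset.mem_insert_of_mem hk)
    have hgi := h0 i (Finset.mem_insert_self i I)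
    have hgi1 := h1 i (Finset.mem_insert_self i I)
    rw [Finset.prod_insert hi]
    cases j with
    | zero =>
      rw [tsum_zero, esum_insert g hi, esum_zero]
      obtain ⟨h2, h3⟩ := ih h0' h1' 0
      rw [tsum_zero] at h2 h3
      simp only [pow_zero, one_mul] at h2 h3 ⊢
      have h4 : 0 ≤ ∏ i ∈ I, (1 - g i) :=
        Finset.prod_nonneg fun k hk => by linarith [h1' k hk]
      constructor
      · nlinarith
      · nlinarith
    | succ j =>
      obtain ⟨h2, h3⟩ := ih h0' h1' (j + 1)
      obtain ⟨h4, h5⟩ := ih h0' h1' j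
      rw [tsum_insert g hi, esum_insert g hi (j + 1)]
      have e : (-1 : ℝ) ^ (j + 1) * (tsum g I (j + 1) - g i * tsum g I j
          - (1 - g i) * ∏ i ∈ I, (1 - g i))
          = (-1 : ℝ) ^ (j + 1) * (tsum g I (j + 1) - ∏ i ∈ I, (1 - g i))
            + g i * ((-1 : ℝ) ^ j * (tsum g I j - ∏ i ∈ I, (1 - g i))) := by ring
      rw [e]
      constructor
      · exact add_nonneg h2 (mul_nonneg hgi h4)
      · exact add_le_add h3 (mul_le_mul_of_nonneg_left h5 hgi)

lemma pow_add_mul_le_add_pow' {s g : ℝ} (hs : 0 ≤ s) (hg : 0 ≤ g) (j : ℕ) :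
    s ^ (j + 1) + (j + 1) * (g * s ^ j) ≤ (g + s) ^ (j + 1) := by
  induction j with
  | zero => simp; linarith
  | succ j ih =>
    have h1 : (g + s) ^ (j + 1 + 1) = (g + s) ^ (j + 1) * (g + s) := pow_succ _ _
    have h2 : 0 ≤ s ^ j := pow_nonneg hs j
    have h3 : (s ^ (j + 1) + (j + 1) * (g * s ^ j)) * (g + s) ≤ (g + s) ^ (j + 1) * (g + s) :=
      mul_le_mul_of_nonneg_right ih (by positivity)
    have h4 : 0 ≤ ((j : ℝ) + 1) * g * g * s ^ j := by positivity
    rw [h1]
    refine le_trans ?_ h3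
    push_cast
    have e : (s ^ (j + 1) + (j + 1) * (g * s ^ j)) * (g + s)
        = s ^ (j + 1 + 1) + (j + 1 + 1) * (g * s ^ (j + 1)) + ((j : ℝ) + 1) * g * g * s ^ j := by
      ring
    rw [e]; linarith

/-- the elementary symmetric sum is at most the power of the sum divided by a factorial -/
lemma esum_le {g : ι → ℝ} {I : Finset ι} (h0 : ∀ i ∈ I, 0 ≤ g i) (j : ℕ) :
    esum g I j ≤ (∑ i ∈ I, g i) ^ j / (j.factorial : ℝ) := by
  induction I using Finset.induction_on generalizing j with
  | empty =>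
    cases j with
    | zero => simp [esum]
    | succ j => rw [esum_empty]; simp
  | insert i I hi ih =>
    have h0' : ∀ i ∈ I, 0 ≤ g i := fun k hk => h0 k (Finset.mem_insert_of_mem hk)
    have hgi := h0 i (Finset.mem_insert_self i I)
    have hs : 0 ≤ ∑ i ∈ I, g i := Finset.sum_nonneg h0'
    rw [Finset.sum_insert hi]
    cases j with
    | zero => simp [esum_zero]
    | succ j =>
      rw [esum_insert g hi]
      have h2 := ih h0' (j + 1)
      have h3 := ih h0' j
      have h4 : (∑ i ∈ I, g i) ^ (j + 1) + (j + 1) * (g i * (∑ i ∈ I, g i) ^ j)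
          ≤ (g i + ∑ i ∈ I, g i) ^ (j + 1) := by
        have := pow_add_mul_le_add_pow' hs hgi j
        exact this
      calc esum g I (j + 1) + g i * esum g I j
          ≤ (∑ i ∈ I, g i) ^ (j + 1) / ((j + 1).factorial : ℝ)
            + g i * ((∑ i ∈ I, g i) ^ j / (j.factorial : ℝ)) :=
            add_le_add h2 (mul_le_mul_of_nonneg_left h3 hgi)
        _ = ((∑ i ∈ I, g i) ^ (j + 1) + (j + 1) * (g i * (∑ i ∈ I, g i) ^ j))
              / ((j + 1).factorial : ℝ) := by
            rw [Nat.factorial_succ]; push_cast; field_simp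
        _ ≤ _ := by gcongr

end Pool.Agent.Helper19.CB
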